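import Pool.Agent.H938_Plus

set_option autoImplicit false

/-!
# No exponential orthonormal bases for overlapping symmetric additive spaces

For `-1 < t < 0` let `μ_t` be one-dimensional Lebesgue measure on `[t, t+1] × {0}` plus
one-dimensional Lebesgue measure on `{0} × [t, t+1]`.  No set `Λ` of frequencies makes the
(normalised) exponentials an orthonormal basis of `L²(μ_t)`.
-/

open MeasureTheory

namespace Pool.Agent.Results.MP_476b1b_an.NoExponentialBasis

/-- The measure `μ_t = m_{I_t} ⊗ δ_0 + δ_0 ⊗ m_{I_t}` with `I_t = [t, t+1]`. -/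
noncomputable def mu (t : ℝ) : Measure (ℝ × ℝ) :=
  ((volume : Measure ℝ).restrict (Set.Icc t (t + 1))).prod (Measure.dirac 0) +
    (Measure.dirac 0).prod ((volume : Measure ℝ).restrict (Set.Icc t (t + 1)))

theorem mu_eq (t : ℝ) : mu t = Pool.Agent.H938P.muT t := by
  unfold mu Pool.Agent.H938P.muT
  rw [Measure.prod_dirac, Measure.dirac_prod]

/-- For every `t` with `-1 < t < 0` (so `0` is interior to `[t, t+1]`) and every
`Λ ⊆ ℝ × ℝ`, there is no orthonormal basis of `L²(μ_t)` indexed by `Λ` whose member at `q ∈ Λ`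
is (the class of) `2^{-1/2} e^{2 π i (q₁ x + q₂ y)}`. -/
theorem result (t : ℝ) (h1 : -1 < t) (h2 : t < 0) (Λ : Set (ℝ × ℝ)) :
    ¬ ∃ b : HilbertBasis Λ ℂ (Lp ℂ 2 (mu t)),
      ∀ q : Λ, (b q : ℝ × ℝ → ℂ) =ᵐ[mu t] fun p =>
        ((Real.sqrt 2)⁻¹ : ℂ) *
          Complex.exp (2 * Real.pi * Complex.I * (q.1.1 * p.1 + q.1.2 * p.2)) := by
  rw [mu_eq]
  rintro ⟨b, hb⟩
  exact Pool.Agent.H938P.no_basis t h1 h2 Λ b hb

end Pool.Agent.Results.MP_476b1b_an.NoExponentialBasis
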